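import Pool.Agent.Helper63.Sey4.Goals

/-!
Packet SEY4-LOPS: the weighted lopsided local lemma.
-/

namespace Pool.Agent.Helper87.Sey4

open Pool.Agent.Helper41.Girth4 Pool.Agent.Helper63.Sey4

open Classical in
theorem goalLOPS : GoalLOPS := by
  intro Ω I _ _ _ A p x Nb hx hS hp
  let Q : Finset I → ℝ := fun T => Pr (fun ω => ∀ j ∈ T, ¬ A j ω)
  have hQ0 : ∀ T, 0 ≤ Q T := fun T => Pr_nonneg _
  have hins : ∀ T j, Q (insert j T) = Q T - Pr (fun ω => A j ω ∧ ∀ i ∈ T, ¬ A i ω) := by
    intro T j
    have h1 := Pr_and_not (fun ω : Ω => ∀ i ∈ T, ¬ A i ω) (A j)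
    have h2 : Q (insert j T) = Pr (fun ω => (∀ i ∈ T, ¬ A i ω) ∧ ¬ A j ω) := by
      apply Pr_congr
      intro ω
      simp only [Finset.mem_insert, forall_eq_or_imp]
      tauto
    have h3 : Pr (fun ω => A j ω ∧ ∀ i ∈ T, ¬ A i ω) = Pr (fun ω => (∀ i ∈ T, ¬ A i ω) ∧ A j ω) :=
      Pr_congr fun ω => by tauto
    rw [h2, h1, h3]
  have hQe : Q ∅ = 1 := by
    have : Q ∅ = Pr (fun _ : Ω => True) := Pr_congr fun ω => by simp
    rw [this, Pr_true]
  have hpx : ∀ i, p i ≤ x i := by
    intro i
    refine (hp i).trans ?_
    have : ∏ j ∈ Finset.univ.filter (fun j => Nb i j ∧ j ≠ i), (1 - x j) ≤ 1 := by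
      apply Finset.prod_le_one
      · intro j _
        have := hx j; linarith
      · intro j _
        have := hx j; linarith
    have h0 := (hx i).1
    nlinarith
  have key : ∀ n : ℕ, ∀ T : Finset I, T.card ≤ n →
      0 < Q T ∧ ∀ j, Pr (fun ω => A j ω ∧ ∀ i ∈ T, ¬ A i ω) ≤ x j * Q T := by
    intro n
    induction n with
    | zero =>
      intro T hT
      have : T = ∅ := Finset.card_eq_zero.1 (Nat.le_zero.1 hT)
      subst this
      refine ⟨by rw [hQe]; exact one_pos, fun j => ?_⟩
      have h1 := hS j ∅ (by simp)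
      have h2 : p j * Q ∅ ≤ x j * Q ∅ := by
        rw [hQe]
        have := hpx j
        linarith
      exact le_trans h1 h2
    | succ n ih =>
      intro T hT
      have hpos : 0 < Q T := by
        rcases T.eq_empty_or_nonempty with rfl | ⟨j, hj⟩
        · exact (ih ∅ (by simp)).1
        · have hc : (T.erase j).card ≤ n := by
            have := Finset.card_erase_of_mem hj
            omega
          have h1 := ih (T.erase j) hc
          have h2 := hins (T.erase j) j
          rw [Finset.insert_erase hj] at h2
          have h3 := h1.2 j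
          rw [h2]
          have h4 := (hx j).2
          nlinarith [h1.1]
      refine ⟨hpos, fun j => ?_⟩
      by_cases hjT : j ∈ T
      · have h0 : Pr (fun ω => A j ω ∧ ∀ i ∈ T, ¬ A i ω) = 0 := by
          have : Pr (fun ω => A j ω ∧ ∀ i ∈ T, ¬ A i ω) = Pr (fun _ : Ω => False) :=
            Pr_congr fun ω => by
              constructor
              · rintro ⟨h1, h2⟩
                exact h2 j hjT h1
              · intro h; exact h.elim
          rw [this, Pr_false]
        rw [h0]
        exact mul_nonneg (hx j).1 hpos.le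
      let T1 := T.filter fun i => Nb j i
      let T2 := T.filter fun i => ¬ Nb j i
      have hT2 : T2 ⊆ T := Finset.filter_subset _ _
      have hT1 : T1 ⊆ T := Finset.filter_subset _ _
      have hT12 : T2 ∪ T1 = T := by
        ext i
        simp only [T1, T2, Finset.mem_union, Finset.mem_filter]
        tauto
      have hdisj : ∀ i ∈ T1, i ∉ T2 := by
        intro i h1 h2
        exact (Finset.mem_filter.1 h2).2 (Finset.mem_filter.1 h1).2
      have hle : Pr (fun ω => A j ω ∧ ∀ i ∈ T, ¬ A i ω) ≤ p j * Q T2 := by
        refine le_trans (Pr_mono (B := fun ω => A j ω ∧ ∀ i ∈ T2, ¬ A i ω) ?_) ?_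
        · intro ω hω
          exact ⟨hω.1, fun i hi => hω.2 i (hT2 hi)⟩
        · exact hS j T2 (fun i hi => (Finset.mem_filter.1 hi).2)
      have hstep : ∀ R : Finset I, R ⊆ T1 → Q T2 * ∏ i ∈ R, (1 - x i) ≤ Q (T2 ∪ R) := by
        intro R
        induction R using Finset.induction_on with
        | empty =>
          intro _
          rw [Finset.prod_empty, mul_one, Finset.union_empty]
        | insert i R hi ihR =>
          intro hR
          have hiT1 : i ∈ T1 := hR (Finset.mem_insert_self _ _)
          have hRT1 : R ⊆ T1 := (Finset.subset_insert _ _).trans hR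
          have hnot : i ∉ T2 ∪ R := by
            rw [Finset.mem_union]
            rintro (h | h)
            · exact hdisj i hiT1 h
            · exact hi h
          have hcard : (T2 ∪ R).card ≤ n := by
            have h1 : insert i (T2 ∪ R) ⊆ T := by
              intro k hk
              rcases Finset.mem_insert.1 hk with rfl | hk
              · exact hT1 hiT1
              · rcases Finset.mem_union.1 hk with hk | hk
                · exact hT2 hk
                · exact hT1 (hRT1 hk)
            have h2 := Finset.card_le_card h1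
            rw [Finset.card_insert_of_notMem hnot] at h2
            omega
          have h3 := (ih (T2 ∪ R) hcard).2 i
          have h4 := hins (T2 ∪ R) i
          rw [Finset.prod_insert hi, Finset.union_insert, h4]
          have h5 := ihR hRT1
          have h6 : 0 ≤ 1 - x i := by have := (hx i).2; linarith
          calc Q T2 * ((1 - x i) * ∏ k ∈ R, (1 - x k))
              = (1 - x i) * (Q T2 * ∏ k ∈ R, (1 - x k)) := by ring
            _ ≤ (1 - x i) * Q (T2 ∪ R) := mul_le_mul_of_nonneg_left h5 h6
            _ ≤ Q (T2 ∪ R) - Pr (fun ω => A i ω ∧ ∀ k ∈ T2 ∪ R, ¬ A k ω) := by linarith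
      have h7 := hstep T1 (Finset.Subset.refl _)
      rw [hT12] at h7
      have h8 : ∏ i ∈ Finset.univ.filter (fun i => Nb j i ∧ i ≠ j), (1 - x i)
          ≤ ∏ i ∈ T1, (1 - x i) := by
        have hsub : T1 ⊆ Finset.univ.filter fun i => Nb j i ∧ i ≠ j := by
          intro i hi
          have hi' := Finset.mem_filter.1 hi
          simp only [Finset.mem_filter, Finset.mem_univ, true_and]
          refine ⟨hi'.2, ?_⟩
          rintro rfl
          exact hjT hi'.1
        rw [← Finset.prod_sdiff hsub]
        have h9 : ∏ i ∈ (Finset.univ.filter fun i => Nb j i ∧ i ≠ j) \ T1, (1 - x i) ≤ 1 := by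
          apply Finset.prod_le_one
          · intro i _
            have := hx i; linarith
          · intro i _
            have := hx i; linarith
        have h10 : 0 ≤ ∏ i ∈ T1, (1 - x i) := by
          apply Finset.prod_nonneg
          intro i _
          have := hx i; linarith
        calc (∏ i ∈ (Finset.univ.filter fun i => Nb j i ∧ i ≠ j) \ T1, (1 - x i))
              * ∏ i ∈ T1, (1 - x i) ≤ 1 * ∏ i ∈ T1, (1 - x i) :=
              mul_le_mul_of_nonneg_right h9 h10
          _ = ∏ i ∈ T1, (1 - x i) := one_mul _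
      have hxj := (hx j).1
      calc Pr (fun ω => A j ω ∧ ∀ i ∈ T, ¬ A i ω) ≤ p j * Q T2 := hle
        _ ≤ (x j * ∏ i ∈ Finset.univ.filter (fun i => Nb j i ∧ i ≠ j), (1 - x i)) * Q T2 :=
            mul_le_mul_of_nonneg_right (hp j) (hQ0 T2)
        _ ≤ (x j * ∏ i ∈ T1, (1 - x i)) * Q T2 :=
            mul_le_mul_of_nonneg_right (mul_le_mul_of_nonneg_left h8 hxj) (hQ0 T2)
        _ = x j * (Q T2 * ∏ i ∈ T1, (1 - x i)) := by ring
        _ ≤ x j * Q T := mul_le_mul_of_nonneg_left h7 hxj
  have hfin := (key _ (Finset.univ : Finset I) le_rfl).1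
  by_contra hcon
  push Not at hcon
  have : Q Finset.univ = Pr (fun _ : Ω => False) := by
    apply Pr_congr
    intro ω
    obtain ⟨j, hj⟩ := hcon ω
    constructor
    · intro h
      exact h j (Finset.mem_univ j) hj
    · intro h
      exact h.elim
  rw [this, Pr_false] at hfin
  exact lt_irrefl _ hfin

end Pool.Agent.Helper87.Sey4
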